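import Pool.Agent.helper20.Sz.B1

/-!
# Module SZ-H1 of MP_e07446_gt: degrees
-/

open scoped symmDiff

namespace Pool.Agent.helper20.Sz

namespace H1
variable {X E : Type} [DecidableEq X] [Fintype E] [DecidableEq E] {K : Cube X E}

/-! ### Number of nonfirst blocks of a word -/

/-- the number of nonfirst blocks of a word is the number of circles outside the first block -/
theorem card_blocks {u : Finset X} {s : E → Bool} {𝒟 : Finset (Finset E)}
    (heq : Equivalence (K.same u))
    (hs : ∀ x y, K.same u x y → s x = s y) (hv : K.Valid u 𝒟)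
    (hfirst : ∀ x, s x = false ↔ ∀ D ∈ 𝒟, x ∈ D)
    (hsingle : ∀ x y, s x = true → (∀ D ∈ 𝒟, (x ∈ D ↔ y ∈ D)) → K.same u x y) :
    Nat.card {z : Quot (K.same u) // ∃ x, Quot.mk _ x = z ∧ s x = true} = 𝒟.card := by
  classical
  -- for a point `x` with `s x = true` the largest member of the chain which does not contain `x`
  have hex : ∀ x : E, s x = true → ∃ D ∈ 𝒟, x ∉ D ∧ ∀ D' ∈ 𝒟, x ∉ D' → D' ⊆ D := by
    intro x hx
    have hne : (𝒟.filter fun D => x ∉ D).Nonempty := by
      by_contra hcon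
      rw [Finset.not_nonempty_iff_eq_empty, Finset.filter_eq_empty_iff] at hcon
      have : s x = false := (hfirst x).2 fun D hD => by
        have := hcon hD
        simpa using this
      rw [this] at hx
      exact absurd hx (by decide)
    obtain ⟨D, hD, hmax⟩ := Finset.exists_max_image (𝒟.filter fun D => x ∉ D) Finset.card hne
    rw [Finset.mem_filter] at hD
    refine ⟨D, hD.1, hD.2, fun D' hD' hx' => ?_⟩
    rcases hv.chain D hD.1 D' hD' with h | h
    · have h1 := hmax D' (Finset.mem_filter.2 ⟨hD', hx'⟩)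
      rw [Finset.eq_of_subset_of_card_le h h1]
    · exact h
  choose! F hF1 hF2 hF3 using hex
  have hFchar : ∀ x, s x = true → ∀ D ∈ 𝒟, x ∉ D → (∀ D' ∈ 𝒟, x ∉ D' → D' ⊆ D) → F x = D := by
    intro x hx D hD h1 h2
    exact Finset.Subset.antisymm (h2 _ (hF1 x hx) (hF2 x hx)) (hF3 x hx D hD h1)
  have hFsame : ∀ x y, s x = true → K.same u x y → F x = F y := by
    intro x y hx hxy
    have hy : s y = true := by rw [← hs x y hxy]; exact hx
    refine hFchar x hx (F y) (hF1 y hy) ?_ ?_
    · rw [hv.sat _ (hF1 y hy) x y hxy]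
      exact hF2 y hy
    · intro D' hD' hx'
      refine hF3 y hy D' hD' ?_
      rw [← hv.sat _ hD' x y hxy]
      exact hx'
  have hFinj : ∀ x y, s x = true → s y = true → F x = F y → K.same u x y := by
    intro x y hx hy hxy
    refine hsingle x y hx fun D hD => ?_
    by_contra hcon
    have hcases : (x ∈ D ∧ y ∉ D) ∨ (x ∉ D ∧ y ∈ D) := by tauto
    rcases hcases with ⟨h1, h2⟩ | ⟨h1, h2⟩
    · exact hF2 x hx (hxy ▸ hF3 y hy D hD h2 h1)
    · exact hF2 y hy (hxy ▸ hF3 x hx D hD h1 h2)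
  have hFsurj : ∀ D ∈ 𝒟, ∃ x, s x = true ∧ F x = D := by
    intro D hD
    -- a point outside `D` in all larger members
    have hpt : ∃ x, x ∉ D ∧ ∀ D' ∈ 𝒟, ¬ D' ⊆ D → x ∈ D' := by
      by_cases hne : (𝒟.filter fun D' => ¬ D' ⊆ D).Nonempty
      · obtain ⟨U, hU, hmin⟩ :=
          Finset.exists_min_image (𝒟.filter fun D' => ¬ D' ⊆ D) Finset.card hne
        rw [Finset.mem_filter] at hU
        obtain ⟨x, hxU, hxD⟩ := Finset.not_subset.1 hU.2
        refine ⟨x, hxD, fun D' hD' hn => ?_⟩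
        rcases hv.chain U hU.1 D' hD' with h | h
        · exact h hxU
        · have h1 := hmin D' (Finset.mem_filter.2 ⟨hD', hn⟩)
          rw [Finset.eq_of_subset_of_card_le h h1]
          exact hxU
      · rw [Finset.not_nonempty_iff_eq_empty, Finset.filter_eq_empty_iff] at hne
        have htop := hv.top D hD
        obtain ⟨x, hx⟩ : ∃ x, x ∉ D := by
          by_contra hcon
          push Not at hcon
          exact htop (Finset.eq_univ_iff_forall.2 hcon)
        exact ⟨x, hx, fun D' hD' hn => absurd hn (hne hD')⟩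
    obtain ⟨x, hxD, hx⟩ := hpt
    have hsx : s x = true := by
      by_contra hcon
      rw [Bool.not_eq_true, hfirst] at hcon
      exact hxD (hcon D hD)
    refine ⟨x, hsx, hFchar x hsx D hD hxD fun D' hD' hx' => ?_⟩
    by_contra hn
    exact hx' (hx D' hD' hn)
  have hcard : Nat.card {z : Quot (K.same u) // ∃ x, Quot.mk _ x = z ∧ s x = true} =
      Nat.card {D // D ∈ 𝒟} := by
    let S := {z : Quot (K.same u) // ∃ x, Quot.mk _ x = z ∧ s x = true}
    have hrep : ∀ z : S, ∃ x, Quot.mk (K.same u) x = z.1 ∧ s x = true := fun z => z.2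
    choose r hr1 hr2 using hrep
    let g : S → {D // D ∈ 𝒟} := fun z => ⟨F (r z), hF1 _ (hr2 z)⟩
    refine Nat.card_congr (Equiv.ofBijective g ⟨?_, ?_⟩)
    · intro z z' h
      have h1 : F (r z) = F (r z') := congrArg Subtype.val h
      have h2 := hFinj _ _ (hr2 z) (hr2 z') h1
      apply Subtype.ext
      rw [← hr1 z, ← hr1 z']
      exact Quot.sound h2
    · rintro ⟨D, hD⟩
      obtain ⟨x, hx, hxF⟩ := hFsurj D hD
      let z : S := ⟨Quot.mk _ x, x, rfl, hx⟩
      refine ⟨z, Subtype.ext ?_⟩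
      change F (r z) = D
      rw [← hxF]
      have h1 : Quot.mk (K.same u) (r z) = Quot.mk _ x := hr1 z
      have h2 : K.same u (r z) x := heq.eqvGen_iff.1 (Quot.eqvGen_exact h1)
      exact hFsame _ _ (hr2 z) h2
  rw [hcard]
  simp

/-! ### Splitting circles outside the first block -/

/-- number of circles in the region `s = b` -/
noncomputable def cnt (K : Cube X E) (u : Finset X) (s : E → Bool) (b : Bool) : ℕ :=
  Nat.card {z : Quot (K.same u) // ∃ x, Quot.mk _ x = z ∧ s x = b}

theorem cnt_add (heq : ∀ v, Equivalence (K.same v)) {u : Finset X} {s : E → Bool}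
    (hs : ∀ x y, K.same u x y → s x = s y) :
    cnt K u s true + cnt K u s false = K.num u := by
  classical
  haveI : Fintype (Quot (K.same u)) := Fintype.ofFinite _
  have h1 : ∀ z : Quot (K.same u), (¬ ∃ x, Quot.mk _ x = z ∧ s x = true) ↔
      ∃ x, Quot.mk _ x = z ∧ s x = false := by
    intro z
    constructor
    · intro h
      obtain ⟨x, rfl⟩ := Quot.exists_rep z
      refine ⟨x, rfl, ?_⟩
      by_contra hcon
      rw [Bool.not_eq_false] at hcon
      exact h ⟨x, rfl, hcon⟩
    · rintro ⟨x, rfl, hx⟩ ⟨y, hy, hy'⟩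
      have h2 : K.same u y x := (heq u).eqvGen_iff.1 (Quot.eqvGen_exact hy)
      rw [hs y x h2, hx] at hy'
      exact absurd hy' (by decide)
  have h2 : cnt K u s false =
      Nat.card {z : Quot (K.same u) // ¬ ∃ x, Quot.mk _ x = z ∧ s x = true} :=
    Nat.card_congr (Equiv.subtypeEquivRight fun z => (h1 z).symm)
  rw [h2, cnt, Cube.num, ← Nat.card_sum]
  exact Nat.card_congr (Equiv.sumCompl _)

theorem cnt_congr (heq : ∀ v, Equivalence (K.same v)) {u v : Finset X} {s : E → Bool} {b : Bool}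
    (hs : ∀ x y, K.same u x y → s x = s y)
    (hs' : ∀ x y, K.same v x y → s x = s y)
    (h : ∀ x y, s x = b → (K.same u x y ↔ K.same v x y)) : cnt K u s b = cnt K v s b := by
  classical
  have hrep : ∀ z : {z : Quot (K.same u) // ∃ x, Quot.mk _ x = z ∧ s x = b},
      ∃ x, Quot.mk (K.same u) x = z.1 ∧ s x = b := fun z => z.2
  choose r hr1 hr2 using hrep
  refine Nat.card_congr (Equiv.ofBijective
    (fun z => (⟨Quot.mk _ (r z), r z, rfl, hr2 z⟩ :
      {z : Quot (K.same v) // ∃ x, Quot.mk _ x = z ∧ s x = b})) ⟨?_, ?_⟩)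
  · intro z z' hz
    have h1 : Quot.mk (K.same v) (r z) = Quot.mk _ (r z') := congrArg Subtype.val hz
    have h2 : K.same v (r z) (r z') := (heq v).eqvGen_iff.1 (Quot.eqvGen_exact h1)
    apply Subtype.ext
    rw [← hr1 z, ← hr1 z']
    exact Quot.sound ((h _ _ (hr2 z)).2 h2)
  · rintro ⟨z, x, rfl, hx⟩
    refine ⟨⟨Quot.mk _ x, x, rfl, hx⟩, Subtype.ext ?_⟩
    have h1 : Quot.mk (K.same u) (r ⟨Quot.mk _ x, x, rfl, hx⟩) = Quot.mk _ x := hr1 _
    have h2 : K.same u (r ⟨Quot.mk _ x, x, rfl, hx⟩) x :=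
      (heq u).eqvGen_iff.1 (Quot.eqvGen_exact h1)
    exact Quot.sound ((h _ _ (hr2 _)).1 h2)

theorem symmDiff_sdiff_of_subset {v u : Finset X} (h : v ⊆ u) : v ∆ (u \ v) = u := by
  ext x
  simp only [Finset.mem_symmDiff, Finset.mem_sdiff]
  constructor
  · rintro (⟨h1, _⟩ | ⟨⟨h1, _⟩, _⟩)
    · exact h h1
    · exact h1
  · intro hx
    by_cases hv : x ∈ v
    · exact Or.inl ⟨hv, fun h' => h'.2 hv⟩
    · exact Or.inr ⟨⟨hx, hv⟩, hv⟩

theorem symmDiff_sdiff_of_subset' {v u : Finset X} (h : v ⊆ u) : u ∆ (u \ v) = v := by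
  ext x
  simp only [Finset.mem_symmDiff, Finset.mem_sdiff]
  constructor
  · rintro (⟨h1, h2⟩ | ⟨⟨h1, _⟩, h3⟩)
    · by_contra hx
      exact h2 ⟨h1, hx⟩
    · exact absurd h1 h3
  · intro hx
    exact Or.inl ⟨h hx, fun h' => h'.2 hx⟩

/-- The number of nonfirst blocks of a word of the image of a generator. -/
theorem card_xi0 (hK : K.IsCore) {P : E} {v u : Finset X} {s : E → Bool}
    (hs : ∀ x y, K.same v x y → s x = s y) {𝒟 : Finset (Finset E)} (h : K.Xi0 P v s u 𝒟) :
    𝒟.card = cnt K v s true + (u \ v).card ∧ K.num u = K.num v + (u \ v).card := by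
  have huv : v ∆ (u \ v) = u := symmDiff_sdiff_of_subset h.sub
  have hvu : u ∆ (u \ v) = v := symmDiff_sdiff_of_subset' h.sub
  have hnum : K.num u = K.num v + (u \ v).card := by
    have := h.spl
    rw [Cube.Spl, huv] at this
    exact this
  have hfin : ∀ x y, K.same u x y → K.same v x y := by
    have := B1.spl_finer hK h.spl
    rw [huv] at this
    exact this
  have hsu : ∀ x y, K.same u x y → s x = s y := fun x y hxy => hs x y (hfin x y hxy)
  have h1 := card_blocks (hK.eqv u) hsu h.valid h.first h.single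
  have h2 : cnt K u s false = cnt K v s false := by
    refine cnt_congr hK.eqv hsu hs fun x y hx => ⟨hfin x y, fun hxy => ?_⟩
    -- the circles with `s = false` do not change
    let f : E → Option (Quot (K.same u)) := fun z => if s z = true then none else some (Quot.mk _ z)
    have hf : ∀ x y, K.same u x y → f x = f y := by
      intro x y hxy
      have h3 := hsu x y hxy
      simp only [f, h3]
      split_ifs
      · rfl
      · rw [Quot.sound hxy]
    have hG : ∀ c ∈ u \ v, f (K.tail c) = f (K.head c) := by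
      intro c hc
      have := h.lab c hc
      simp only [f, this.1, this.2, if_true]
    have h4 := B1.inv_flip hK f u (u \ v) hf hG
    rw [hvu] at h4
    have h5 := h4 x y hxy
    have hy : s y = false := by rw [← hs x y hxy]; exact hx
    simp only [f, hx, hy, Bool.false_eq_true, if_false, Option.some.injEq] at h5
    exact (hK.eqv u).eqvGen_iff.1 (Quot.eqvGen_exact h5)
  have h3 := cnt_add hK.eqv hsu
  have h4 := cnt_add hK.eqv hs
  refine ⟨?_, hnum⟩
  rw [← h1]
  change cnt K u s true = _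
  omega

/-! ### Rotations do not change the number of blocks -/

theorem rr_compl_inj {v : Finset X} {𝒟 : Finset (Finset E)} (h : K.Valid v 𝒟) {D : Finset E}
    (hD : D ∈ 𝒟) : (rho D 𝒟).card = 𝒟.card := by
  have hinj : Set.InjOn (rr D) ((𝒟.erase D : Finset (Finset E)) : Set (Finset E)) := by
    intro A hA B hB hAB
    rw [Finset.mem_coe, Finset.mem_erase] at hA hB
    by_cases h1 : D ⊆ A <;> by_cases h2 : D ⊆ B
    · rw [rr, rr, if_pos h1, if_pos h2] at hAB
      have : A \ D ∪ D = B \ D ∪ D := by rw [hAB]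
      rwa [Finset.sdiff_union_of_subset h1, Finset.sdiff_union_of_subset h2] at this
    · rw [rr, rr, if_pos h1, if_neg h2] at hAB
      exfalso
      -- `B` is nonempty and `B ⊆ D`
      have hBD : B ⊆ D := (h.chain D hD B hB.2).resolve_left h2
      obtain ⟨x, hx⟩ := h.ne B hB.2
      have : x ∈ A \ D := by rw [hAB]; exact Finset.mem_union_left _ hx
      exact (Finset.mem_sdiff.1 this).2 (hBD hx)
    · rw [rr, rr, if_neg h1, if_pos h2] at hAB
      exfalso
      have hAD : A ⊆ D := (h.chain D hD A hA.2).resolve_left h1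
      obtain ⟨x, hx⟩ := h.ne A hA.2
      have : x ∈ B \ D := by rw [← hAB]; exact Finset.mem_union_left _ hx
      exact (Finset.mem_sdiff.1 this).2 (hAD hx)
    · have hAD : A ⊆ D := (h.chain D hD A hA.2).resolve_left h1
      have hBD : B ⊆ D := (h.chain D hD B hB.2).resolve_left h2
      rw [rr, rr, if_neg h1, if_neg h2] at hAB
      ext x
      have h3 : x ∈ A ∪ Dᶜ ↔ x ∈ B ∪ Dᶜ := by rw [hAB]
      simp only [Finset.mem_union, Finset.mem_compl] at h3
      constructor
      · intro hx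
        rcases h3.1 (Or.inl hx) with h4 | h4
        · exact h4
        · exact absurd (hAD hx) h4
      · intro hx
        rcases h3.2 (Or.inl hx) with h4 | h4
        · exact h4
        · exact absurd (hBD hx) h4
  have hnot : Dᶜ ∉ (𝒟.erase D).image (rr D) := by
    intro hcon
    obtain ⟨A, hA, hAD⟩ := Finset.mem_image.1 hcon
    rw [Finset.mem_erase] at hA
    by_cases h1 : D ⊆ A
    · rw [rr, if_pos h1] at hAD
      apply h.top A hA.2
      rw [Finset.eq_univ_iff_forall]
      intro x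
      by_cases hx : x ∈ D
      · exact h1 hx
      · have : x ∈ A \ D := by rw [hAD]; exact Finset.mem_compl.2 hx
        exact (Finset.mem_sdiff.1 this).1
    · have hAD' : A ⊆ D := (h.chain D hD A hA.2).resolve_left h1
      rw [rr, if_neg h1] at hAD
      obtain ⟨x, hx⟩ := h.ne A hA.2
      have : x ∈ Dᶜ := by rw [← hAD]; exact Finset.mem_union_left _ hx
      exact (Finset.mem_compl.1 this) (hAD' hx)
  rw [rho, Finset.card_insert_of_notMem hnot, Finset.card_image_of_injOn hinj,
    Finset.card_erase_of_mem hD]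
  have : 0 < 𝒟.card := Finset.card_pos.2 ⟨D, hD⟩
  omega

/-! ### The statements -/

theorem deg_xi (hK : K.IsCore) (P : E) (a : K.Gen) (u : Finset X) (𝒟 : Finset (Finset E))
    (h : K.Xi P a.v a.s u 𝒟) : a.v ⊆ u ∧
    2 * (𝒟.card : ℤ) - K.num u - u.card = K.gr a - a.v.card := by
  obtain ⟨hval, h0⟩ := h
  obtain ⟨𝒟', hcard, h'⟩ : ∃ 𝒟' : Finset (Finset E), 𝒟'.card = 𝒟.card ∧
      K.Xi0 P a.v a.s u 𝒟' := by
    rcases h0 with h1 | ⟨D, hD, h1⟩
    · exact ⟨𝒟, rfl, h1⟩
    · exact ⟨rho D 𝒟, rr_compl_inj hval hD, h1⟩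
  obtain ⟨h1, h2⟩ := card_xi0 hK a.inv h'
  refine ⟨h'.sub, ?_⟩
  have h3 : (u \ a.v).card + a.v.card = u.card := Finset.card_sdiff_add_card_eq_card h'.sub
  rw [← hcard, h1, h2, ← h3, Cube.gr]
  change _ = 2 * ((cnt K a.v a.s true : ℕ) : ℤ) - _ - _
  push_cast
  ring

theorem deg_del (hK : K.IsCore) (s0 : Bool) (hN : K.NumP s0) (ψ : W X E) (m : ℕ) (y : ℤ)
    (h : ∀ v 𝒟, ψ v 𝒟 ≠ 0 → K.Valid v 𝒟 ∧ m ≤ v.card ∧
      2 * (𝒟.card : ℤ) - K.num v - v.card = y) :
    ∀ u 𝒟, K.del s0 ψ u 𝒟 ≠ 0 → m ≤ u.card ∧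
      2 * (𝒟.card : ℤ) - K.num u - u.card = y - 2 := by
  classical
  intro u 𝒟 hne
  change K.delF s0 ψ u 𝒟 ≠ 0 at hne
  rw [Cube.delF] at hne
  obtain ⟨w, hw, hw'⟩ := Finset.exists_ne_zero_of_sum_ne_zero hne
  rw [Finset.mem_powerset] at hw
  have hwu : u ∆ (u \ w) = w := symmDiff_sdiff_of_subset' hw
  have hc : (u \ w).card + w.card = u.card := Finset.card_sdiff_add_card_eq_card hw
  have hcl : w.card ≤ u.card := Finset.card_le_card hw
  by_cases h1 : ∀ c ∈ u \ w, K.Nsep 𝒟 c
  · rw [if_pos h1] at hw'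
    by_cases h2 : K.AC s0 u (u \ w) ∧ ψ w 𝒟 ≠ 0
    · obtain ⟨h3, h4, h5⟩ := h w 𝒟 h2.2
      have h6 := hN u (u \ w) (fun c hc c' hc' => by
        rw [Finset.mem_sdiff] at hc hc'
        exact ⟨fun _ => hc'.1, fun _ => hc.1⟩) h2.1
      rw [hwu] at h6
      refine ⟨h4.trans hcl, ?_⟩
      push_cast [← hc] at *
      have h7 : (K.num w : ℤ) + 2 = K.num u + (u \ w).card := by exact_mod_cast h6
      linarith
    · have h3 : (if K.AC s0 u (u \ w) then ψ w 𝒟 else 0) = 0 := by
        by_cases h4 : K.AC s0 u (u \ w)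
        · rw [if_pos h4]
          by_contra h5
          exact h2 ⟨h4, h5⟩
        · rw [if_neg h4]
      rw [h3, zero_add] at hw'
      by_cases h4 : K.num u + (u \ w).card = K.num w
      · rw [if_pos h4] at hw'
        obtain ⟨D, hD, hD'⟩ := Finset.exists_ne_zero_of_sum_ne_zero hw'
        rw [Finset.mem_filter] at hD
        obtain ⟨h5, h6, h7⟩ := h w _ hD'
        rw [Finset.card_insert_of_notMem hD.2.1] at h7
        refine ⟨h6.trans hcl, ?_⟩
        have h8 : (K.num u : ℤ) + (u \ w).card = K.num w := by exact_mod_cast h4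
        push_cast [← hc] at *
        linarith
      · rw [if_neg h4] at hw'
        exact absurd rfl hw'
  · rw [if_neg h1] at hw'
    exact absurd rfl hw'

/-- every generator has a word at its own resolution -/
theorem exists_word (hK : K.IsCore) (P : E) (a : K.Gen) (hP : a.s P = false) :
    ∃ 𝒟, K.Xi0 P a.v a.s a.v 𝒟 := by
  classical
  haveI : Fintype (Quot (K.same a.v)) := Fintype.ofFinite _
  let e : Quot (K.same a.v) → ℕ := fun q => (Fintype.equivFin _ q : ℕ)
  have he : Function.Injective e := by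
    intro q q' h
    exact (Fintype.equivFin _).injective (Fin.ext h)
  have hes : ∀ x y, e (Quot.mk _ x) = e (Quot.mk _ y) → K.same a.v x y := by
    intro x y h
    exact (hK.eqv a.v).eqvGen_iff.1 (Quot.eqvGen_exact (he h))
  let D : E → Finset E := fun z =>
    Finset.univ.filter fun x => a.s x = false ∨ e (Quot.mk _ x) < e (Quot.mk _ z)
  have hD : ∀ z x, x ∈ D z ↔ (a.s x = false ∨ e (Quot.mk _ x) < e (Quot.mk _ z)) := by
    intro z x
    simp [D]
  let 𝒟 : Finset (Finset E) := (Finset.univ.filter fun z => a.s z = true).image D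
  have h𝒟 : ∀ A, A ∈ 𝒟 ↔ ∃ z, a.s z = true ∧ D z = A := by
    intro A
    simp [𝒟]
  have hmem : ∀ z, a.s z = true → D z ∈ 𝒟 := fun z hz => (h𝒟 _).2 ⟨z, hz, rfl⟩
  have hnot : ∀ z, a.s z = true → z ∉ D z := by
    intro z hz hcon
    rw [hD, hz] at hcon
    rcases hcon with h | h
    · exact absurd h (by decide)
    · exact lt_irrefl _ h
  refine ⟨𝒟, ?_⟩
  refine
    { sub := Finset.Subset.refl _
      valid := ?_
      nrm := ?_
      first := ?_
      single := ?_
      spl := ?_
      lab := ?_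
      ord := ?_ }
  · refine ⟨?_, ?_, ?_, ?_⟩
    · intro A hA
      obtain ⟨z, hz, rfl⟩ := (h𝒟 A).1 hA
      exact ⟨P, (hD z P).2 (Or.inl hP)⟩
    · intro A hA hcon
      obtain ⟨z, hz, rfl⟩ := (h𝒟 A).1 hA
      exact hnot z hz (hcon ▸ Finset.mem_univ z)
    · intro A hA x y hxy
      obtain ⟨z, hz, rfl⟩ := (h𝒟 A).1 hA
      rw [hD, hD, a.inv x y hxy, Quot.sound hxy]
    · intro A hA B hB
      obtain ⟨z, hz, rfl⟩ := (h𝒟 A).1 hA
      obtain ⟨z', hz', rfl⟩ := (h𝒟 B).1 hB
      rcases le_total (e (Quot.mk _ z)) (e (Quot.mk _ z')) with h | h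
      · left
        intro x hx
        rw [hD] at hx ⊢
        exact hx.imp id fun h' => lt_of_lt_of_le h' h
      · right
        intro x hx
        rw [hD] at hx ⊢
        exact hx.imp id fun h' => lt_of_lt_of_le h' h
  · intro A hA
    obtain ⟨z, hz, rfl⟩ := (h𝒟 A).1 hA
    exact (hD z P).2 (Or.inl hP)
  · intro x
    constructor
    · intro hx A hA
      obtain ⟨z, hz, rfl⟩ := (h𝒟 A).1 hA
      exact (hD z x).2 (Or.inl hx)
    · intro h
      by_contra hcon
      rw [Bool.not_eq_false] at hcon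
      exact hnot x hcon (h _ (hmem x hcon))
  · intro x y hx h
    have h1 : y ∉ D x := fun hcon => hnot x hx ((h _ (hmem x hx)).2 hcon)
    have hy : a.s y = true := by
      by_contra hcon
      rw [Bool.not_eq_true] at hcon
      exact h1 ((hD x y).2 (Or.inl hcon))
    have h2 : x ∉ D y := fun hcon => hnot y hy ((h _ (hmem y hy)).1 hcon)
    rw [hD, not_or] at h1 h2
    exact hes x y (le_antisymm (not_lt.1 h1.2) (not_lt.1 h2.2))
  · have h1 : a.v ∆ (∅ : Finset X) = a.v := symmDiff_bot _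
    simp [Cube.Spl, h1]
  · intro c hc
    simp at hc
  · intro c hc
    simp at hc

end H1

end Pool.Agent.helper20.Sz
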